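import Mathlib
import Pool.Agent.X262.TDCMain

set_option autoImplicit false

/-!
The degree of twisted commutativity of a finitely generated virtually abelian group is the infimum
of the degrees of twisted commutativity of its finite quotients.
-/

namespace Pool.Agent.Results.MP_13fe47_al.FiniteQuotients

open Filter Topology Pool.Agent.X262

/-- The ball of radius `n`: the elements of `G` that are products of at most `n` elements of
`X ∪ X⁻¹`. -/
def ball {G : Type} [Group G] (X : Set G) (n : ℕ) : Set G :=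
  {g | ∃ l : List G, l.length ≤ n ∧ (∀ x ∈ l, x ∈ X ∨ x⁻¹ ∈ X) ∧ l.prod = g}

/-- The proportion of the pairs `(x, y)` in the square of the ball with `xy = yφ(x)`. -/
noncomputable def ratio {G : Type} [Group G] (X : Set G) (φ : G →* G) (n : ℕ) : ℝ :=
  (({p | p.1 ∈ ball X n ∧ p.2 ∈ ball X n ∧ p.1 * p.2 = p.2 * φ p.1} : Set (G × G)).ncard : ℝ) /
    ((ball X n).ncard : ℝ) ^ 2

/-- The degree of twisted commutativity `tdc_X(φ, G)`. -/
noncomputable def tdc {G : Type} [Group G] (X : Set G) (φ : G →* G) : ℝ :=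
  limsup (ratio X φ) atTop

/-- The degree of twisted commutativity `tdc(ψ, F)` of an endomorphism of a finite group. -/
noncomputable def tdcFinite {F : Type} [Group F] (ψ : F →* F) : ℝ :=
  (({p | p.1 * p.2 = p.2 * ψ p.1} : Set (F × F)).ncard : ℝ) / (Nat.card F : ℝ) ^ 2

/-- `I(φ, G)`: the infimum of `tdc(φ̄, G/N)` over the normal subgroups `N` of finite index with
`φ(N) ≤ N`. -/
noncomputable def infQuot {G : Type} [Group G] (φ : G →* G) : ℝ :=
  sInf {t | ∃ (N : Subgroup G) (_ : N.Normal) (_ : N.FiniteIndex) (h : N ≤ N.comap φ),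
    t = tdcFinite (QuotientGroup.map N N φ h)}

/-- For a finitely generated virtually abelian group `G`, a finite generating set `X` and an
endomorphism `φ`, one has `tdc_X(φ, G) = I(φ, G)`, and the limit superior is a limit. -/
theorem result (G : Type) [Group G] (X : Set G) (hX : X.Finite) (hgen : Subgroup.closure X = ⊤)
    (hab : ∃ B : Subgroup G, B.FiniteIndex ∧ ∀ a ∈ B, ∀ b ∈ B, a * b = b * a) (φ : G →* G) :
    tdc X φ = infQuot φ ∧ Tendsto (ratio X φ) atTop (𝓝 (infQuot φ)) := by
  obtain ⟨B, hBf, hB⟩ := hab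
  obtain ⟨v, h1, h2, h3⟩ := TDC.main hX hgen B hB φ
  have hratio : ratio X φ = TDC.dens X {p | p.1 * p.2 = p.2 * φ p.1} := by
    funext n
    unfold ratio TDC.dens
    congr 2
    congr 1
    ext p
    constructor
    · rintro ⟨ha, hb, hc⟩
      exact ⟨hc, ha, hb⟩
    · rintro ⟨hc, ha, hb⟩
      exact ⟨ha, hb, hc⟩
  have hI : infQuot φ = v := by
    unfold infQuot
    apply le_antisymm
    · apply le_of_forall_pos_le_add
      intro δ hδ
      obtain ⟨N, hn, hf, hN, hle⟩ := h3 δ hδ
      refine le_trans (csInf_le ⟨v, ?_⟩ ⟨N, hn, hf, hN, rfl⟩) hle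
      rintro _ ⟨N', hn', hf', hN', rfl⟩
      exact h2 N' hN'
    · apply le_csInf
      · obtain ⟨N, hn, hf, hN, -⟩ := h3 1 one_pos
        exact ⟨_, N, hn, hf, hN, rfl⟩
      · rintro _ ⟨N', hn', hf', hN', rfl⟩
        exact h2 N' hN'
  have hlim : Tendsto (ratio X φ) atTop (𝓝 (infQuot φ)) := by
    rw [hratio, hI]; exact h1
  exact ⟨hlim.limsup_eq, hlim⟩

end Pool.Agent.Results.MP_13fe47_al.FiniteQuotients
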